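import Pool.Agent.helper20.Sz.Sys

/-!
# Transpositions and cycles (module SZ-P1 for MP_e07446_gt)
-/

namespace Pool.Agent.helper20.Sz
namespace P1
variable {α : Type} [Finite α] [DecidableEq α]

omit [Finite α] in
theorem tau_left (σ : Equiv.Perm α) (a b : α) : (σ * Equiv.swap a b) a = σ b := by simp

omit [Finite α] in
theorem tau_right (σ : Equiv.Perm α) (a b : α) : (σ * Equiv.swap a b) b = σ a := by simp

omit [Finite α] in
theorem tau_other (σ : Equiv.Perm α) {a b x : α} (h1 : x ≠ a) (h2 : x ≠ b) :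
    (σ * Equiv.swap a b) x = σ x := by
  rw [Equiv.Perm.mul_apply, Equiv.swap_apply_of_ne_of_ne h1 h2]

theorem swap_split (σ : Equiv.Perm α) {a b : α} (hab : a ≠ b) (h : σ.SameCycle a b) :
    ¬ (σ * Equiv.swap a b).SameCycle a b := by
  classical
  intro hc
  have hex : ∃ k : ℕ, (σ ^ k) a = b := h.exists_nat_pow_eq
  obtain ⟨k, hk, hmin⟩ : ∃ k : ℕ, (σ ^ k) a = b ∧ ∀ j < k, (σ ^ j) a ≠ b :=
    ⟨Nat.find hex, Nat.find_spec hex, fun j hj => Nat.find_min hex hj⟩
  have hk0 : 0 < k := by
    rcases Nat.eq_zero_or_pos k with h0 | h0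
    · subst h0; exact absurd hk (by simpa using hab)
    · exact h0
  have hna : ∀ i, 1 ≤ i → i ≤ k → (σ ^ i) a ≠ a := by
    intro i h1 h2 hi
    have : (σ ^ (k - i)) a = b := by
      rw [← hk]
      have : k = (k - i) + i := by omega
      conv_rhs => rw [this, pow_add, Equiv.Perm.mul_apply, hi]
    exact hmin (k - i) (by omega) this
  have key : ∀ n : ℕ, ∃ i, 1 ≤ i ∧ i ≤ k ∧ ((σ * Equiv.swap a b) ^ n) b = (σ ^ i) a := by
    intro n
    induction n with
    | zero => exact ⟨k, hk0, le_rfl, by simp [hk]⟩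
    | succ n ih =>
      obtain ⟨i, h1, h2, h3⟩ := ih
      rw [pow_succ', Equiv.Perm.mul_apply, h3]
      rcases Nat.lt_or_ge i k with h4 | h4
      · refine ⟨i + 1, by omega, by omega, ?_⟩
        rw [tau_other σ (hna i h1 h2) (hmin i h4), pow_succ', Equiv.Perm.mul_apply]
      · have : i = k := by omega
        subst this
        refine ⟨1, le_rfl, by omega, ?_⟩
        rw [hk, tau_right, pow_one]
  obtain ⟨n, hn⟩ := hc.symm.exists_nat_pow_eq
  obtain ⟨i, h1, h2, h3⟩ := key n
  rw [hn] at h3
  exact hna i h1 h2 h3.symm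

theorem swap_merge (σ : Equiv.Perm α) {a b : α} (h : ¬ σ.SameCycle a b) (x y : α) :
    (σ * Equiv.swap a b).SameCycle x y ↔ σ.SameCycle x y ∨
      (σ.SameCycle x a ∧ σ.SameCycle b y) ∨ (σ.SameCycle x b ∧ σ.SameCycle a y) := by
  classical
  have hself : ∀ (ρ : Equiv.Perm α) z, ρ.SameCycle z (ρ z) := fun ρ z => ⟨1, by simp⟩
  constructor
  · intro hxy
    obtain ⟨n, hn⟩ := hxy.exists_nat_pow_eq
    rw [← hn]
    clear hn hxy
    induction n with
    | zero => left; exact Equiv.Perm.SameCycle.refl _ _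
    | succ n ih =>
      rw [pow_succ', Equiv.Perm.mul_apply]
      set z := ((σ * Equiv.swap a b) ^ n) x with hz
      by_cases hza : z = a
      · rw [hza] at ih ⊢
        rw [tau_left]
        rcases ih with h1 | ⟨_, h2⟩ | ⟨h1, _⟩
        · exact Or.inr (Or.inl ⟨h1, hself σ b⟩)
        · exact absurd h2.symm h
        · exact Or.inl (h1.trans (hself σ b))
      · by_cases hzb : z = b
        · rw [hzb] at ih ⊢
          rw [tau_right]
          rcases ih with h1 | ⟨h1, _⟩ | ⟨_, h2⟩
          · exact Or.inr (Or.inr ⟨h1, hself σ a⟩)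
          · exact Or.inl (h1.trans (hself σ a))
          · exact absurd h2 h
        · rw [tau_other σ hza hzb]
          rcases ih with h1 | ⟨h1, h2⟩ | ⟨h1, h2⟩
          · exact Or.inl (h1.trans (hself σ z))
          · exact Or.inr (Or.inl ⟨h1, h2.trans (hself σ z)⟩)
          · exact Or.inr (Or.inr ⟨h1, h2.trans (hself σ z)⟩)
  · have hab : (σ * Equiv.swap a b).SameCycle a b := by
      have hex : ∃ m : ℕ, 0 < m ∧ (σ ^ m) b = b :=
        ⟨orderOf σ, orderOf_pos σ, by rw [pow_orderOf_eq_one]; rfl⟩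
      obtain ⟨m, ⟨hm0, hm⟩, hmin⟩ : ∃ m : ℕ, (0 < m ∧ (σ ^ m) b = b) ∧
          ∀ j < m, ¬ (0 < j ∧ (σ ^ j) b = b) :=
        ⟨Nat.find hex, Nat.find_spec hex, fun j hj => Nat.find_min hex hj⟩
      have key : ∀ n : ℕ, 1 ≤ n → n ≤ m → ((σ * Equiv.swap a b) ^ n) a = (σ ^ n) b := by
        intro n h1
        induction n, h1 using Nat.le_induction with
        | base => intro _; rw [pow_one, pow_one, tau_left]
        | succ n hn ih =>
          intro h2
          rw [pow_succ', Equiv.Perm.mul_apply, ih (by omega), tau_other, pow_succ',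
            Equiv.Perm.mul_apply]
          · intro h3
            exact h (Equiv.Perm.SameCycle.symm ⟨n, by simpa using h3⟩)
          · intro h3
            exact hmin n (by omega) ⟨by omega, h3⟩
      exact ⟨m, by simpa using (key m hm0 le_rfl).trans hm⟩
    have hstep : ∀ z, (σ * Equiv.swap a b).SameCycle z (σ z) := by
      intro z
      by_cases hza : z = a
      · subst hza
        have := hself (σ * Equiv.swap z b) b
        rw [tau_right] at this
        exact hab.trans this
      · by_cases hzb : z = b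
        · subst hzb
          have := hself (σ * Equiv.swap a z) a
          rw [tau_left] at this
          exact hab.symm.trans this
        · have := hself (σ * Equiv.swap a b) z
          rwa [tau_other σ hza hzb] at this
    have hsub : ∀ z w, σ.SameCycle z w → (σ * Equiv.swap a b).SameCycle z w := by
      intro z w hzw
      obtain ⟨n, hn⟩ := hzw.exists_nat_pow_eq
      rw [← hn]
      clear hn hzw
      induction n with
      | zero => exact Equiv.Perm.SameCycle.refl _ _
      | succ n ih =>
        rw [pow_succ', Equiv.Perm.mul_apply]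
        exact ih.trans (hstep _)
    rintro (h1 | ⟨h1, h2⟩ | ⟨h1, h2⟩)
    · exact hsub _ _ h1
    · exact (hsub _ _ h1).trans (hab.trans (hsub _ _ h2))
    · exact (hsub _ _ h1).trans (hab.symm.trans (hsub _ _ h2))

end P1
end Pool.Agent.helper20.Sz
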